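import Pool.Agent.H58.SF.GD

/-!
# The Bodirsky–Pinsker conjecture for undirected graphs of finite chromatic number

The conjecture holds for all undirected graphs `(D; E)` of the scope which are `4`-colourable, or
`(2 k - 1)`-colourable and contain a complete graph with `k` vertices, or have an odd potential,
or contain a complete graph with `k ≥ 3` vertices and have a homomorphism to a finite graph
without complete graph with `2 k` vertices, or have a homomorphism to a finite graph with a
two-dimensional potential (for example to a finite graph without loops and without `K₂,₃`), or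
have a homomorphism to `T` for a rigid pair `(S, T)` of finite graphs such that `S` has
homomorphisms to all finite graphs to which `(D; E)` has homomorphisms: if the graph is
`2`-colourable then its constraint satisfaction problem is in P, otherwise it pp-constructs `K₃`.
The definitions are in `Pool.Agent.H68.BG.Conj`, `Pool.Agent.H58.SF.Defs` (`OddPotential`),
`Pool.Agent.H58.SF.Asm` (`Colorable`, `HasClique`, `SandwichGraph`), `Pool.Agent.H50.TP.Defs` and
`Pool.Agent.H50.TP.Graph` (`TwoPotential`, `TwoPotGraph`), `Pool.Agent.H53.FC.Graph` and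
`Pool.Agent.H53.FC.Class` (`RigidGraphs`, `MapsToFiniteImages`, `RigidImages`) and
`Pool.Agent.H58.SF.GD` (`SparseGraph`).
-/

namespace Pool.Agent.H53.Old.GraphDichotomy

open Pool.Agent.H68.BP Pool.Agent.H58.SF Pool.Agent.H50.TP Pool.Agent.H53.FC

theorem result (D : Type) (E : D → D → Prop) (hD : InScope (graph E))
    (hs : ∀ x y, E x y → E y x)
    (hE : Colorable E 4 ∨ (∃ k, HasClique E k ∧ Colorable E (2 * k - 1)) ∨ SandwichGraph E ∨
      TwoPotGraph E ∨ SparseGraph E ∨ RigidImages E) :
    (Colorable E 2 → CSP (graph E) ∈ N68a2faeb.P) ∧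
      (¬ Colorable E 2 → PPConstructsK3 (graph E)) := by
  have hOS : T_OS := Pool.Agent.H21.SF.pf_OS Pool.Agent.H21.SF.pf_TK
  have hOR := Pool.Agent.H18.SF.pf_OR
  constructor
  · rintro ⟨c, hc⟩
    refine Pool.Agent.H1.SF.pf_P2 D E (fun x => decide (c x = 0)) hD.2.1 hs fun x y hxy h => ?_
    have h1 := hc x y hxy
    have key : ∀ u v : Fin 2, decide (u = 0) = decide (v = 0) → u = v := by decide
    exact h1 (key _ _ h)
  · intro h2
    have two : TwoPotGraph E → PPConstructsK3 (graph E) := fun h =>
      graph_K3_two hD.1 (hOR _ _ _ hD) hs h h2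
    rcases hE with h | h | h | h | h | h
    · exact two (twoPotGraph_four h)
    · exact graph_K3 hOS hD.1 (hOR _ _ _ hD) hs (sandwich_of_colorable (Or.inr h)) h2
    · exact graph_K3 hOS hD.1 (hOR _ _ _ hD) hs h h2
    · exact two h
    · exact two h.twoPotGraph
    · exact RigidImages.K3 hD.1 (hOR _ _ _ hD) hs h

end Pool.Agent.H53.Old.GraphDichotomy
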